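import Pool.Agent.Helper83.UMC.Meas

/-!
Unions of meager sets over thin sets of one level of the projective hierarchy.
-/

set_option autoImplicit false

namespace Pool.Agent.Helper83.UMC

open Set Filter Topology PiNat Pool.Agent.Helper91.PU MeasureTheory

theorem Sig.of_borel : ∀ {n : ℕ} {Y : Type} [TopologicalSpace Y] {A : Set Y},
    @MeasurableSet Y (borel Y) A → Sig n Y A := by
  intro n
  induction n with
  | zero =>
    intro Y _ A hA
    exact hA
  | succ n ih =>
    intro Y _ A hA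
    refine ⟨Prod.fst ⁻¹' A, ih (MeasurableSet.compl ?_), ?_⟩
    · let mY : MeasurableSpace Y := borel Y
      have bY : BorelSpace Y := ⟨rfl⟩
      let mZ : MeasurableSpace (Y × Bs) := borel (Y × Bs)
      have bZ : BorelSpace (Y × Bs) := ⟨rfl⟩
      have h1 : @Measurable (Y × Bs) Y mZ mY Prod.fst := continuous_fst.measurable
      exact h1 hA
    · rw [image_preimage_eq]
      exact Prod.fst_surjective

theorem Sig.of_measurable {n : ℕ} {Y : Type} [TopologicalSpace Y] [MeasurableSpace Y]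
    [BorelSpace Y] {A : Set Y} (h : MeasurableSet A) : Sig n Y A := by
  refine Sig.of_borel ?_
  rw [← BorelSpace.measurable_eq (α := Y)]
  exact h

theorem Sig.inter_union : ∀ {n : ℕ} {Y : Type} [TopologicalSpace Y]
    [SecondCountableTopology Y] {A B : Set Y}, Sig n Y A → Sig n Y B →
      Sig n Y (A ∩ B) ∧ Sig n Y (A ∪ B) := by
  intro n
  induction n with
  | zero =>
    intro Y _ _ A B hA hB
    exact ⟨MeasurableSet.inter hA hB, MeasurableSet.union hA hB⟩
  | succ n ih =>
    intro Y _ _ A B hA hB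
    obtain ⟨C, hC, rfl⟩ := hA
    obtain ⟨C', hC', rfl⟩ := hB
    constructor
    · refine ⟨(fun p : Y × Bs => (p.1, (homBs p.2).1)) ⁻¹' C ∩
        (fun p : Y × Bs => (p.1, (homBs p.2).2)) ⁻¹' C', ?_, ?_⟩
      · rw [compl_inter, ← preimage_compl, ← preimage_compl]
        let mY : MeasurableSpace Y := borel Y
        have bY : BorelSpace Y := ⟨rfl⟩
        have h1 : Measurable fun p : Y × Bs => homBs p.2 :=
          homBs.continuous.measurable.comp measurable_snd
        exact (ih (hC.preimage' (measurable_fst.prodMk (measurable_fst.comp h1)))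
          (hC'.preimage' (measurable_fst.prodMk (measurable_snd.comp h1)))).2
      · ext y
        constructor
        · rintro ⟨⟨⟨y1, z⟩, hz, h1⟩, ⟨⟨y2, w⟩, hw, h2⟩⟩
          have h1' : y1 = y := h1
          have h2' : y2 = y := h2
          subst h1'
          subst h2'
          refine ⟨(y2, homBs.symm (z, w)), ⟨?_, ?_⟩, rfl⟩
          · show (y2, (homBs (homBs.symm (z, w))).1) ∈ C
            rw [homBs.apply_symm_apply]
            exact hz
          · show (y2, (homBs (homBs.symm (z, w))).2) ∈ C'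
            rw [homBs.apply_symm_apply]
            exact hw
        · rintro ⟨⟨y', v⟩, ⟨h1, h2⟩, rfl⟩
          exact ⟨⟨_, h1, rfl⟩, ⟨_, h2, rfl⟩⟩
    · refine ⟨C ∪ C', ?_, ?_⟩
      · rw [compl_union]
        exact (ih hC hC').1
      · rw [image_union]

/-- unions of meager sets over a thin set are meager -/
theorem thin_additive {m : ℕ} (h : UMPi (m + 2)) {D : Set Bs} (hD : Sig (m + 1) Bs D)
    (hthin : Thin D) {M : Set (Bs × Bs)} (hM : Sig (m + 1) (Bs × Bs) M)
    (hm : ∀ d ∈ D, IsMeagre {x | (x, d) ∈ M}) : IsMeagre {x | ∃ d ∈ D, (x, d) ∈ M} := by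
  have h1 : Sig (m + 2) (Bs × Bs) (M ∩ Prod.snd ⁻¹' D)ᶜ :=
    (Sig.inter_union hM (hD.preimage' measurable_snd)).1.succ_compl
  have h2 := umr_thin h hthin h1 (fun p hp => hp.2) (fun d hd => (hm d hd).mono fun x hx => hx.1)
  refine h2.mono ?_
  rintro x ⟨d, hd, hx⟩
  exact ⟨(x, d), ⟨hx, hd⟩, rfl⟩

/-- strong measure zero -/
def SMZ (Y : Set ℝ) : Prop :=
  ∀ ε : ℕ → ℝ, (∀ k, 0 < ε k) → ∃ a : ℕ → ℝ, ∀ r ∈ Y, ∃ᶠ k in atTop, |r - a k| < ε k

theorem measurable_freq {Z : Type} [MeasurableSpace Z] {u : Z → ℝ} {v : ℕ → Z → ℝ} {ε : ℕ → ℝ}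
    (hu : Measurable u) (hv : ∀ k, Measurable (v k)) :
    MeasurableSet {z | ∃ᶠ k in atTop, |u z - v k z| < ε k} := by
  have h1 : {z | ∃ᶠ k in atTop, |u z - v k z| < ε k} =
      ⋂ m : ℕ, ⋃ n : ℕ, ⋃ _ : m ≤ n, {z | |u z - v n z| < ε n} := by
    ext z
    simp [frequently_atTop]
  rw [h1]
  refine MeasurableSet.iInter fun m => MeasurableSet.iUnion fun n => MeasurableSet.iUnion fun _ => ?_
  exact measurableSet_lt (hu.sub (hv n)).norm measurable_const

/-- additivity implies that all Borel images have strong measure zero -/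
theorem smz_of_additive {n : ℕ} {D : Set Bs}
    (h : ∀ M : Set (Bs × Bs), Sig n (Bs × Bs) M → (∀ d ∈ D, IsMeagre {x | (x, d) ∈ M}) →
      IsMeagre {x | ∃ d ∈ D, (x, d) ∈ M}) {g : Bs → ℝ} (hg : Measurable g) : SMZ (g '' D) := by
  intro ε hε
  obtain ⟨q, hq⟩ := TopologicalSpace.exists_dense_seq ℝ
  have hv : ∀ k, Measurable fun p : Bs × Bs => q (p.1 k) := fun k =>
    (measurable_from_top (f := q)).comp ((measurable_pi_apply k).comp measurable_fst)
  have h1 := h {p | ∃ᶠ k in atTop, |g p.2 - q (p.1 k)| < ε k}ᶜ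
    (Sig.of_measurable (measurable_freq (hg.comp measurable_snd) hv).compl) ?_
  · have h2 : ∀ᶠ x in residual Bs, x ∉ {x | ∃ d ∈ D, (x, d) ∈
        {p : Bs × Bs | ∃ᶠ k in atTop, |g p.2 - q (p.1 k)| < ε k}ᶜ} := h1
    obtain ⟨x, hx⟩ := (dense_of_mem_residual h2).nonempty
    refine ⟨fun k => q (x k), ?_⟩
    rintro _ ⟨d, hd, rfl⟩
    by_contra hc
    exact hx ⟨d, hd, hc⟩
  · intro d _
    have h3 : ∀ᶠ x in residual Bs, ∀ m : ℕ, ∃ k, m ≤ k ∧ |g d - q (x k)| < ε k := by
      rw [eventually_countable_forall]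
      intro m
      have ho : IsOpen {x : Bs | ∃ k, m ≤ k ∧ |g d - q (x k)| < ε k} := by
        have he : {x : Bs | ∃ k, m ≤ k ∧ |g d - q (x k)| < ε k} =
            ⋃ k : ℕ, ⋃ _ : m ≤ k, (fun x : Bs => x k) ⁻¹' {j | |g d - q j| < ε k} := by
          ext x
          simp
        rw [he]
        refine isOpen_iUnion fun k => isOpen_iUnion fun _ => ?_
        have hc : Continuous fun x : Bs => x k := continuous_apply k
        exact (isOpen_discrete _).preimage hc
      refine residual_of_dense_open ho ?_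
      rw [dense_iff_inter_open]
      rintro V hV ⟨x₀, hx₀⟩
      obtain ⟨W, ⟨x₁, l, rfl⟩, hx₀W, hWV⟩ :=
        (isTopologicalBasis_cylinders (fun _ : ℕ => ℕ)).exists_subset_of_mem_open hx₀ hV
      obtain ⟨j, hj⟩ := hq.exists_dist_lt (g d) (hε (max l m))
      refine ⟨Function.update x₀ (max l m) j, hWV ?_, max l m, le_max_right _ _, ?_⟩
      · rw [mem_cylinder_iff] at hx₀W ⊢
        intro i hi
        have hne : i ≠ max l m := by
          have := le_max_left l m
          omega
        rw [Function.update_of_ne hne]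
        exact hx₀W i hi
      · rw [Function.update_self, ← Real.dist_eq]
        exact hj
    have h4 : ∀ᶠ x in residual Bs, x ∈ {x | (x, d) ∈
        {p : Bs × Bs | ∃ᶠ k in atTop, |g p.2 - q (p.1 k)| < ε k}ᶜ}ᶜ := by
      filter_upwards [h3] with x hx hc
      apply hc
      show ∃ᶠ k in atTop, |g d - q (x k)| < ε k
      rw [frequently_atTop]
      intro m
      obtain ⟨k, hk, hk'⟩ := hx m
      exact ⟨k, hk, hk'⟩
    exact h4

theorem equiv_of_perfect {P : Set Bs} (hP : Perfect P) (hne : P.Nonempty) :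
    Nonempty (P ≃ᵐ ℝ) := by
  have hpol : PolishSpace P := hP.closed.polishSpace
  have h1 : ¬ Countable P := by
    intro hc
    let := TopologicalSpace.upgradeIsCompletelyMetrizable Bs
    obtain ⟨f, hf, _, hinj⟩ := hP.exists_nat_bool_injection hne
    have h2 : Function.Injective fun b => (⟨f b, hf ⟨b, rfl⟩⟩ : P) := by
      intro b b' he
      exact hinj (congrArg Subtype.val he)
    have h4 : Countable (ℕ → Bool) := h2.countable
    have h5 : Cardinal.mk (ℕ → Bool) ≤ Cardinal.aleph0 := Cardinal.mk_le_aleph0_iff.2 h4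
    have h6 : Cardinal.mk (ℕ → Bool) = 2 ^ Cardinal.aleph0 := by
      rw [← Cardinal.power_def, Cardinal.mk_bool, Cardinal.mk_nat]
    rw [h6] at h5
    exact absurd h5 (not_le.2 (Cardinal.cantor _))
  have h2 : ¬ Countable ℝ := by
    intro hc
    exact Cardinal.not_countable_real (countable_univ_iff.2 hc)
  exact ⟨PolishSpace.measurableEquivOfNotCountable h1 h2⟩

theorem not_smz_univ : ¬ SMZ Set.univ := by
  intro h
  obtain ⟨a, ha⟩ := h (fun k => (1 / 2) ^ k) fun k => by positivity
  have h1 : {r : ℝ | ∃ᶠ k in atTop, |r - a k| < (1 / 2) ^ k} = Set.univ :=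
    eq_univ_of_forall fun r => ha r (mem_univ r)
  have h2 := null_freq a
  rw [h1] at h2
  simp at h2

theorem thin_of_smz {D : Set Bs} (h : ∀ g : Bs → ℝ, Measurable g → SMZ (g '' D)) : Thin D := by
  intro P hPD hP
  by_contra hne
  have hne' : P.Nonempty := nonempty_iff_ne_empty.2 hne
  obtain ⟨e⟩ := equiv_of_perfect hP hne'
  obtain ⟨g, hg, hge⟩ := (MeasurableEmbedding.subtype_coe
    hP.closed.measurableSet).exists_measurable_extend e.measurable fun _ => ⟨0⟩
  apply not_smz_univ
  have h1 := h g hg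
  intro ε hε
  obtain ⟨a, ha⟩ := h1 ε hε
  refine ⟨a, fun r _ => ha r ⟨e.symm r, hPD (e.symm r).2, ?_⟩⟩
  have h2 : g (e.symm r) = e (e.symm r) := congrFun hge (e.symm r)
  rw [h2, e.apply_symm_apply]

theorem thin_of_guess {D : Set Bs}
    (h : ∀ ε : ℕ → ℝ, (∀ k, 0 < ε k) → ∃ a : ℕ → Bs → ℝ, (∀ k, Continuous (a k)) ∧
      ∀ r : ℝ, {d | d ∈ D ∧ ¬ ∃ᶠ k in atTop, |r - a k d| < ε k}.Countable) : Thin D := by
  intro P hPD hP
  by_contra hne
  have hne' : P.Nonempty := nonempty_iff_ne_empty.2 hne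
  obtain ⟨e⟩ := equiv_of_perfect hP hne'
  obtain ⟨a, hac, ha⟩ := h (fun k => (1 / 2) ^ k) fun k => by positivity
  set μ : Measure ℝ := volume.restrict (Icc 0 1) with hμ
  have hprob : IsProbabilityMeasure μ := ⟨by rw [hμ]; simp⟩
  have hle : ∀ s : Set ℝ, volume s = 0 → μ s = 0 := fun s hs =>
    le_antisymm ((Measure.restrict_apply_le _ _).trans hs.le) zero_le
  set G : Set (ℝ × ℝ) := {p | ∃ᶠ k in atTop, |p.2 - a k (e.symm p.1)| < (1 / 2) ^ k} with hG
  have hGm : MeasurableSet G := by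
    refine measurable_freq measurable_snd fun k => ?_
    exact (hac k).measurable.comp
      (measurable_subtype_coe.comp (e.symm.measurable.comp measurable_fst))
  have h1 : (μ.prod μ) G = 0 := by
    rw [Measure.measure_prod_null hGm]
    refine Eventually.of_forall fun t => ?_
    exact hle _ (null_freq fun k => a k (e.symm t))
  have h2 : (μ.prod μ) (Prod.swap ⁻¹' Gᶜ) = 0 := by
    rw [Measure.measure_prod_null (measurable_swap hGm.compl)]
    refine Eventually.of_forall fun r => hle _ ?_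
    have h3 : (Prod.mk r ⁻¹' (Prod.swap ⁻¹' Gᶜ) : Set ℝ).Countable := by
      have h4 := (ha r).preimage_of_injOn (f := fun t : ℝ => ((e.symm t : P) : Bs))
        ((Subtype.val_injective.comp e.symm.injective).injOn)
      refine h4.mono ?_
      intro t ht
      exact ⟨hPD (e.symm t).2, ht⟩
    exact h3.measure_zero _
  have h3 : (μ.prod μ) Gᶜ = 0 := by
    have h4 := Measure.measurePreserving_swap.quasiMeasurePreserving.preimage_null
      (μa := μ.prod μ) (μb := μ.prod μ) h2
    have h5 : Prod.swap ⁻¹' (Prod.swap ⁻¹' Gᶜ) = Gᶜ := by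
      ext p
      simp
    rwa [h5] at h4
  have h6 : (μ.prod μ) (Set.univ : Set (ℝ × ℝ)) = 0 := by
    rw [← union_compl_self G]
    exact le_antisymm ((measure_union_le _ _).trans (by rw [h1, h3, add_zero])) zero_le
  rw [measure_univ] at h6
  exact one_ne_zero h6

end Pool.Agent.Helper83.UMC
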