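import Pool.Agent.Helper83.UMC.Lev

/-!
The covering theorem: over a thin uncountable projective set `D` there are, for comeager many `x`,
codes such that every bounded sequence is infinitely often guessed by all but countably many members
of `D`.
-/

set_option autoImplicit false

namespace Pool.Agent.Helper83.UMC

open Set Filter Topology PiNat Pool.Agent.Helper91.PU

/-- the value at `d` of the locally constant function with code `t` -/
def ev (t : List (List ℕ × ℕ)) (d : Bs) : ℕ :=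
  (t.map fun p => if p.1 = res d p.1.length then p.2 else 0).sum

/-- the guess of `d` at the place `n`, according to `x` -/
def vv (x d : Bs) (n : ℕ) : ℕ := ev (Denumerable.ofNat (List (List ℕ × ℕ)) (x n)) d

theorem ev_continuous (t : List (List ℕ × ℕ)) : Continuous (ev t) := by
  induction t with
  | nil => exact continuous_const
  | cons p t ih =>
    have h1 : Continuous fun d : Bs => if p.1 = res d p.1.length then p.2 else 0 := by
      apply IsLocallyConstant.continuous
      rw [IsLocallyConstant.iff_eventually_eq]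
      intro d
      filter_upwards [(isOpen_cylinder (fun _ => ℕ) d p.1.length).mem_nhds
        (self_mem_cylinder d p.1.length)] with y hy
      have h2 : res d p.1.length = res y p.1.length := by
        rw [res_eq_res]
        intro i hi
        exact (mem_cylinder_iff.1 hy i hi).symm
      rw [h2]
    have h3 : ev (p :: t) = fun d => (if p.1 = res d p.1.length then p.2 else 0) + ev t d := by
      funext d
      simp [ev]
    rw [h3]
    exact h1.add ih

theorem vv_continuous (n : ℕ) : Continuous fun p : Bs × Bs => vv p.1 p.2 n := by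
  have h1 : Continuous fun q : ℕ × Bs => ev (Denumerable.ofNat (List (List ℕ × ℕ)) q.1) q.2 := by
    rw [continuous_prod_of_discrete_left]
    intro a
    exact ev_continuous (Denumerable.ofNat (List (List ℕ × ℕ)) a)
  have h2 : Continuous fun p : Bs × Bs => (p.1 n, p.2) :=
    ((continuous_apply n).comp continuous_fst).prodMk continuous_snd
  exact h1.comp h2

theorem exists_code {N : ℕ} {d : Fin N → Bs} (hd : Function.Injective d) :
    ∃ a : ℕ, ∀ (x : Bs) (n : ℕ), x n = a → ∀ i, vv x (d i) n = i := by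
  obtain ⟨k, hk⟩ : ∃ k, Function.Injective fun i => res (d i) k := by
    have h1 : ∀ p : Fin N × Fin N, ∃ k, p.1 ≠ p.2 → ∀ k', k ≤ k' → res (d p.1) k' ≠ res (d p.2) k' := by
      intro p
      by_cases hp : p.1 = p.2
      · exact ⟨0, fun h => absurd hp h⟩
      · have h2 : d p.1 ≠ d p.2 := fun h => hp (hd h)
        obtain ⟨m, hm⟩ : ∃ m, d p.1 m ≠ d p.2 m := by
          by_contra hc
          push Not at hc
          exact h2 (funext hc)
        refine ⟨m + 1, fun _ k' hk' he => hm ?_⟩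
        exact res_eq_res.1 he (by omega)
    choose K hK using h1
    refine ⟨Finset.univ.sup K, fun i j hij => ?_⟩
    by_contra hne
    exact hK (i, j) hne _ (Finset.le_sup (Finset.mem_univ (i, j))) hij
  refine ⟨Encodable.encode (List.ofFn fun i : Fin N => (res (d i) k, (i : ℕ))), ?_⟩
  intro x n hx i
  unfold vv
  rw [hx, Denumerable.ofNat_encode]
  unfold ev
  rw [List.map_ofFn, List.sum_ofFn, Finset.sum_eq_single i]
  · simp
  · intro j _ hj
    simp only [Function.comp]
    rw [if_neg]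
    rw [res_length]
    intro he
    exact hj (hk he)
  · intro h
    exact absurd (Finset.mem_univ i) h

/-- the quantifier: there are only countably many -/
theorem sig_countable {n : ℕ} {Y : Type} [TopologicalSpace Y] [SecondCountableTopology Y]
    {S : Set (Y × Bs)} (hS : Sig (n + 1) (Y × Bs) S) :
    Sig (n + 2) Y {p | {d | (p, d) ∈ S}.Countable} := by
  let mY : MeasurableSpace Y := borel Y
  have bY : BorelSpace Y := ⟨rfl⟩
  set T : Set ((Y × Bs) × Bs) := (fun q : (Y × Bs) × Bs => (q.1.1, q.2)) ⁻¹' S ∩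
    {q | ∀ i : ℕ, q.2 ≠ fun j => q.1.2 (Nat.pair i j)} with hT
  have h1 : Sig (n + 1) ((Y × Bs) × Bs) T := by
    refine Sig.inter_measurable (hS.preimage' ?_) ?_
    · exact (measurable_fst.comp measurable_fst).prodMk measurable_snd
    · have h2 : {q : (Y × Bs) × Bs | ∀ i : ℕ, q.2 ≠ fun j => q.1.2 (Nat.pair i j)} =
          ⋂ i : ℕ, {q : (Y × Bs) × Bs | q.2 = fun j => q.1.2 (Nat.pair i j)}ᶜ := by
        ext q
        simp
      rw [h2]
      refine MeasurableSet.iInter fun i => (measurableSet_eq_fun measurable_snd ?_).compl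
      rw [measurable_pi_iff]
      intro j
      exact (measurable_pi_apply (Nat.pair i j)).comp (measurable_snd.comp measurable_fst)
  refine ⟨(Prod.fst '' T)ᶜ, ?_, ?_⟩
  · rw [compl_compl]
    exact h1.proj
  · ext p
    constructor
    · intro hp
      have hp' : {d | (p, d) ∈ S}.Countable := hp
      obtain ⟨w, hw⟩ := countable_iff_exists_subset_range.1 hp'
      refine ⟨(p, fun m => w (Nat.unpair m).1 (Nat.unpair m).2), ?_, rfl⟩
      rintro ⟨⟨⟨p', z⟩, d⟩, ⟨hd1, hd2⟩, he⟩
      have he' : (p', z) = (p, fun m => w (Nat.unpair m).1 (Nat.unpair m).2) := he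
      obtain ⟨rfl, rfl⟩ := Prod.mk.inj he'
      obtain ⟨i, hi⟩ := hw (show d ∈ {d | (p', d) ∈ S} from hd1)
      apply hd2 i
      funext j
      show d j = w (Nat.unpair (Nat.pair i j)).1 (Nat.unpair (Nat.pair i j)).2
      rw [Nat.unpair_pair]
      exact (congrFun hi j).symm
    · rintro ⟨⟨p', z⟩, hz, rfl⟩
      show {d | (p', d) ∈ S}.Countable
      refine countable_iff_exists_subset_range.2 ⟨fun i j => z (Nat.pair i j), ?_⟩
      intro d hd
      by_contra hc
      apply hz
      refine ⟨((p', z), d), ⟨hd, ?_⟩, rfl⟩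
      intro i hi
      exact hc ⟨i, hi.symm⟩

/-- the set of bad members of `D` -/
def bad (D : Set Bs) (x y : Bs) : Set Bs := {d | d ∈ D ∧ ∀ᶠ n in atTop, y n ≠ vv x d n}

theorem measurable_ev_ne {Z : Type} [MeasurableSpace Z] {g h : Z → Bs} {y : Z → Bs}
    (hg : Measurable g) (hh : Measurable h) (hy : Measurable y) (m : ℕ) :
    MeasurableSet {z | ∀ n, m ≤ n → y z n ≠ vv (g z) (h z) n} := by
  have h1 : {z | ∀ n, m ≤ n → y z n ≠ vv (g z) (h z) n} =
      ⋂ n : ℕ, ⋂ _ : m ≤ n, {z | y z n = vv (g z) (h z) n}ᶜ := by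
    ext z
    simp
  rw [h1]
  refine MeasurableSet.iInter fun n => MeasurableSet.iInter fun _ => MeasurableSet.compl ?_
  refine measurableSet_eq_fun ((measurable_pi_apply n).comp hy) ?_
  exact (vv_continuous n).measurable.comp (hg.prodMk hh)

theorem measurable_ev_eventually {Z : Type} [MeasurableSpace Z] {g h : Z → Bs} {y : Z → Bs}
    (hg : Measurable g) (hh : Measurable h) (hy : Measurable y) :
    MeasurableSet {z | ∀ᶠ n in atTop, y z n ≠ vv (g z) (h z) n} := by
  have h1 : {z | ∀ᶠ n in atTop, y z n ≠ vv (g z) (h z) n} =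
      ⋃ m : ℕ, {z | ∀ n, m ≤ n → y z n ≠ vv (g z) (h z) n} := by
    ext z
    simp [eventually_atTop]
  rw [h1]
  exact MeasurableSet.iUnion fun m => measurable_ev_ne hg hh hy m

/-- for every Borel function `f` with bounded values, all but countably many `d` guess `f x`
infinitely often, for comeager many `x` -/
theorem fail_countable {L : ℕ → ℕ} {U : Set Bs} {f : Bs → Bs}
    (hf : Measurable f) (hfL : ∀ᶠ x in residual Bs, x ∈ U → ∀ n, f x n < L n) (hU : IsOpen U) :
    ∃ C : Set Bs, C.Countable ∧ ∀ d, d ∉ C → ∀ᶠ x in residual Bs, x ∈ U →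
      ∃ᶠ n in atTop, f x n = vv x d n := by
  -- for each open set only finitely many `d` fail from `n₀` on
  set DD : Set Bs → ℕ → Set Bs := fun O n₀ =>
    {d | ∀ᶠ x in residual Bs, x ∈ O → ∀ n, n₀ ≤ n → f x n ≠ vv x d n} with hDD
  have hfin : ∀ O : Set Bs, O ⊆ U → IsOpen O → O.Nonempty → ∀ n₀, (DD O n₀).Finite := by
    intro O hOU hO hOne n₀
    by_contra hinf
    have hinf' : (DD O n₀).Infinite := hinf
    obtain ⟨x₀, hx₀⟩ := hOne
    obtain ⟨W, ⟨x₁, m, rfl⟩, hx₀W, hWO⟩ :=
      (isTopologicalBasis_cylinders (fun _ : ℕ => ℕ)).exists_subset_of_mem_open hx₀ hO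
    set n : ℕ := max m n₀ with hn'
    obtain ⟨e⟩ : Nonempty (Fin (L n) ↪ DD O n₀) := by
      have := hinf'.to_subtype
      exact ⟨(Fin.valEmbedding).trans (Infinite.natEmbedding (DD O n₀))⟩
    obtain ⟨a, ha⟩ := exists_code (d := fun i => (e i : Bs))
      (Subtype.val_injective.comp e.injective)
    set O' : Set Bs := {x | (∀ i < n, x i = x₀ i) ∧ x n = a} with hO'
    have hO'o : IsOpen O' := by
      have h1 : O' = (⋂ i ∈ Finset.range n, {x : Bs | x i = x₀ i}) ∩ {x : Bs | x n = a} := by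
        ext x
        simp [hO']
      rw [h1]
      refine IsOpen.inter ?_ ?_
      · refine isOpen_biInter_finset fun i _ => ?_
        have hc : Continuous fun x : Bs => x i := continuous_apply i
        exact (isOpen_discrete ({x₀ i} : Set ℕ)).preimage hc
      · have hc : Continuous fun x : Bs => x n := continuous_apply n
        exact (isOpen_discrete ({a} : Set ℕ)).preimage hc
    have hO'ne : O'.Nonempty := by
      refine ⟨Function.update x₀ n a, fun i hi => ?_, ?_⟩
      · rw [Function.update_of_ne (by omega)]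
      · rw [Function.update_self]
    have hO'O : O' ⊆ O := by
      intro x hx
      apply hWO
      rw [mem_cylinder_iff] at hx₀W ⊢
      intro i hi
      rw [hx.1 i (by omega), hx₀W i hi]
    have h2 : ∀ᶠ x in residual Bs, ∀ i : Fin (L n), x ∈ O → ∀ n, n₀ ≤ n →
        f x n ≠ vv x (e i) n := by
      rw [eventually_countable_forall]
      intro i
      exact (e i).2
    obtain ⟨x, hxO', hx1, hx2⟩ := (dense_of_mem_residual (inter_mem h2 hfL)).inter_open_nonempty
      O' hO'o hO'ne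
    have hxO : x ∈ O := hO'O hxO'
    have hlt : f x n < L n := hx2 (hOU hxO) n
    have h3 := hx1 ⟨f x n, hlt⟩ hxO n (le_max_right _ _)
    exact h3 (ha x n hxO'.2 ⟨f x n, hlt⟩).symm
  refine ⟨⋃ W ∈ {W | W ∈ TopologicalSpace.countableBasis Bs ∧ W ⊆ U}, ⋃ n₀ : ℕ, DD W n₀,
    ?_, ?_⟩
  · refine Set.Countable.biUnion ((TopologicalSpace.countable_countableBasis Bs).mono
      fun W hW => hW.1) fun W hW => ?_
    refine countable_iUnion fun n₀ => ?_
    exact (hfin W hW.2 (TopologicalSpace.isOpen_of_mem_countableBasis hW.1)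
      (TopologicalSpace.nonempty_of_mem_countableBasis hW.1) n₀).countable
  · intro d hdC
    by_contra hnm
    have hnm' : ¬ IsMeagre {x | x ∈ U ∧ ∀ᶠ n in atTop, f x n ≠ vv x d n} := by
      intro hm
      apply hnm
      have h1 : ∀ᶠ x in residual Bs, x ∉ {x | x ∈ U ∧ ∀ᶠ n in atTop, f x n ≠ vv x d n} := hm
      filter_upwards [h1] with x hx hxU
      by_contra hc
      rw [not_frequently] at hc
      exact hx ⟨hxU, hc⟩
    have h6 : {x | x ∈ U ∧ ∀ᶠ n in atTop, f x n ≠ vv x d n}
        ⊆ ⋃ n₀ ∈ (univ : Set ℕ), U ∩ {x | ∀ n, n₀ ≤ n → f x n ≠ vv x d n} := by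
      rintro x ⟨hxU, hx⟩
      obtain ⟨n₀, hn₀⟩ := eventually_atTop.1 hx
      exact mem_iUnion₂.2 ⟨n₀, mem_univ _, hxU, hn₀⟩
    obtain ⟨n₀, _, hn₀⟩ := exists_of_not_isMeagre_biUnion (to_countable _)
      (fun hm => hnm' (hm.mono h6))
    have h7 : MeasurableSet (U ∩ {x | ∀ n, n₀ ≤ n → f x n ≠ vv x d n}) :=
      hU.measurableSet.inter (measurable_ev_ne measurable_id measurable_const hf n₀)
    obtain ⟨O, hOU, hO, hOne, hO'⟩ :=
      open_of_nonmeagre h7.baireMeasurableSet hU inter_subset_left hn₀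
    obtain ⟨x, hx⟩ := hOne
    obtain ⟨W, hW, hxW, hWO⟩ :=
      (TopologicalSpace.isBasis_countableBasis Bs).exists_subset_of_mem_open hx hO
    apply hdC
    refine mem_iUnion₂.2 ⟨W, ⟨hW, hWO.trans hOU⟩, mem_iUnion.2 ⟨n₀, ?_⟩⟩
    show ∀ᶠ x in residual Bs, x ∈ W → ∀ n, n₀ ≤ n → f x n ≠ vv x d n
    filter_upwards [hO'] with z hz hzW
    exact (hz (hWO hzW)).2

theorem measurable_bounded (L : ℕ → ℕ) : MeasurableSet {p : Bs × Bs | ∀ n, p.2 n < L n} := by
  have h1 : {p : Bs × Bs | ∀ n, p.2 n < L n} = ⋂ n : ℕ, {p : Bs × Bs | p.2 n < L n} := by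
    ext p
    simp
  rw [h1]
  refine MeasurableSet.iInter fun n => ?_
  exact measurableSet_lt ((measurable_pi_apply n).comp measurable_snd) measurable_const

/-- the covering theorem, first form -/
theorem covering_any {n : ℕ} (h : UMPi (n + 1)) {D : Set Bs} (hD : Sig (n + 1) Bs D)
    (hunc : ¬ D.Countable) (L : ℕ → ℕ) :
    ∀ᶠ x in residual Bs, ∀ y : Bs, (∀ k, y k < L k) → ∃ d ∈ D, ∃ᶠ k in atTop, y k = vv x d k := by
  set S : Set ((Bs × Bs) × Bs) := (Prod.snd ⁻¹' D) ∩
    {q | ∀ᶠ k in atTop, q.1.2 k ≠ vv q.1.1 q.2 k}ᶜ with hS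
  have hSm : Sig (n + 1) ((Bs × Bs) × Bs) S := by
    refine Sig.inter_measurable (hD.preimage' measurable_snd) (MeasurableSet.compl ?_)
    exact measurable_ev_eventually (measurable_fst.comp measurable_fst) measurable_snd
      (measurable_snd.comp measurable_fst)
  set R : Set (Bs × Bs) := {p | ∀ k, p.2 k < L k} ∩ (Prod.fst '' S)ᶜ with hRdef
  have hR : Sig (n + 1) (Bs × Bs) Rᶜ := by
    rw [hRdef, compl_inter, compl_compl, union_comm]
    exact hSm.proj.union_measurable (measurable_bounded L).compl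
  by_contra hcon
  have hn : ¬ IsMeagre (Prod.fst '' R) := by
    intro hm
    apply hcon
    have h1 : ∀ᶠ x in residual Bs, x ∈ (Prod.fst '' R)ᶜ := hm
    filter_upwards [h1] with x hx y hy
    by_contra hc
    refine hx ⟨(x, y), ⟨hy, ?_⟩, rfl⟩
    rintro ⟨⟨⟨x', y'⟩, d⟩, ⟨hd1, hd2⟩, he⟩
    have he' : (x', y') = (x, y) := he
    obtain ⟨rfl, rfl⟩ := Prod.mk.inj he'
    refine hc ⟨d, hd1, ?_⟩
    intro h5
    exact hd2 h5
  obtain ⟨U, hU, hUne, f, hf, hfR⟩ := umr_open h hR hn
  have hfL : ∀ᶠ x in residual Bs, x ∈ U → ∀ k, f x k < L k := by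
    filter_upwards [hfR] with x hx hxU
    exact (hx hxU).1
  obtain ⟨C, hCc, hC⟩ := fail_countable hf hfL hU
  obtain ⟨d, hdD, hdC⟩ : ∃ d ∈ D, d ∉ C := by
    by_contra hc
    push Not at hc
    exact hunc (hCc.mono hc)
  obtain ⟨x, hxU, hx1, hx2⟩ := (dense_of_mem_residual (inter_mem (hC d hdC) hfR)).inter_open_nonempty
    U hU hUne
  have h3 := hx1 hxU
  apply (hx2 hxU).2
  exact ⟨((x, f x), d), ⟨hdD, fun h5 => h3 (h5.mono fun k hk => hk)⟩, rfl⟩

/-- the covering theorem, second form -/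
theorem covering_thin {n : ℕ} (h : UMPi (n + 2)) {D : Set Bs} (hD : Sig (n + 1) Bs D)
    (hthin : Thin D) (L : ℕ → ℕ) :
    ∀ᶠ x in residual Bs, ∀ y : Bs, (∀ k, y k < L k) → (bad D x y).Countable := by
  set S : Set ((Bs × Bs) × Bs) := (Prod.snd ⁻¹' D) ∩
    {q | ∀ᶠ k in atTop, q.1.2 k ≠ vv q.1.1 q.2 k} with hS
  have hSm : Sig (n + 1) ((Bs × Bs) × Bs) S := by
    refine Sig.inter_measurable (hD.preimage' measurable_snd) ?_
    exact measurable_ev_eventually (measurable_fst.comp measurable_fst) measurable_snd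
      (measurable_snd.comp measurable_fst)
  set R : Set (Bs × Bs) := {p | ∀ k, p.2 k < L k} ∩ {p | (bad D p.1 p.2).Countable}ᶜ with hRdef
  have hR : Sig (n + 2) (Bs × Bs) Rᶜ := by
    rw [hRdef, compl_inter, compl_compl, union_comm]
    exact (sig_countable hSm).union_measurable (measurable_bounded L).compl
  by_contra hcon
  have hn : ¬ IsMeagre (Prod.fst '' R) := by
    intro hm
    apply hcon
    have h1 : ∀ᶠ x in residual Bs, x ∈ (Prod.fst '' R)ᶜ := hm
    filter_upwards [h1] with x hx y hy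
    by_contra hc
    exact hx ⟨(x, y), ⟨hy, hc⟩, rfl⟩
  obtain ⟨U, hU, hUne, f, hf, hfR⟩ := umr_open h hR hn
  have hfL : ∀ᶠ x in residual Bs, x ∈ U → ∀ k, f x k < L k := by
    filter_upwards [hfR] with x hx hxU
    exact (hx hxU).1
  obtain ⟨C, hCc, hC⟩ := fail_countable hf hfL hU
  -- the members of `D` outside `C` fail only for meager many `x`
  have hM : Sig (n + 2) (Bs × Bs) ((Prod.snd ⁻¹' D) ∩
      ((Prod.fst ⁻¹' U ∩ {p : Bs × Bs | ∀ᶠ k in atTop, f p.1 k ≠ vv p.1 p.2 k}) ∩
        (Prod.snd ⁻¹' C)ᶜ))ᶜ := by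
    refine Sig.succ_compl (Sig.inter_measurable (hD.preimage' measurable_snd) ?_)
    refine ((measurable_fst hU.measurableSet).inter ?_).inter
      (measurable_snd hCc.measurableSet).compl
    exact measurable_ev_eventually measurable_fst measurable_snd (hf.comp measurable_fst)
  have hmeag := umr_thin h hthin hM (fun p hp => hp.1) ?_
  · have h5 : ∀ᶠ x in residual Bs, x ∈ (Prod.fst '' ((Prod.snd ⁻¹' D) ∩
      ((Prod.fst ⁻¹' U ∩ {p : Bs × Bs | ∀ᶠ k in atTop, f p.1 k ≠ vv p.1 p.2 k}) ∩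
        (Prod.snd ⁻¹' C)ᶜ)))ᶜ := hmeag
    obtain ⟨x, hxU, hx1, hx2⟩ := (dense_of_mem_residual (inter_mem h5 hfR)).inter_open_nonempty
      U hU hUne
    have hxR : (x, f x) ∈ R := hx2 hxU
    apply hxR.2
    show (bad D x (f x)).Countable
    refine hCc.mono ?_
    intro d hd
    by_contra hdC
    exact hx1 ⟨(x, d), ⟨hd.1, ⟨hxU, hd.2⟩, hdC⟩, rfl⟩
  · intro d hdD
    by_cases hdC : d ∈ C
    · have h1 : {x | (x, d) ∈ (Prod.snd ⁻¹' D) ∩
        ((Prod.fst ⁻¹' U ∩ {p : Bs × Bs | ∀ᶠ k in atTop, f p.1 k ≠ vv p.1 p.2 k}) ∩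
        (Prod.snd ⁻¹' C)ᶜ)} = ∅ := by
        rw [eq_empty_iff_forall_notMem]
        rintro x ⟨_, _, hx⟩
        exact hx hdC
      rw [h1]
      exact IsMeagre.empty
    · have h1 : ∀ᶠ x in residual Bs, x ∈ {x | (x, d) ∈ (Prod.snd ⁻¹' D) ∩
        ((Prod.fst ⁻¹' U ∩ {p : Bs × Bs | ∀ᶠ k in atTop, f p.1 k ≠ vv p.1 p.2 k}) ∩
        (Prod.snd ⁻¹' C)ᶜ)}ᶜ := by
        filter_upwards [hC d hdC] with x hx
        rintro ⟨_, ⟨hxU, hx2⟩, _⟩
        exact hx hxU (hx2.mono fun k hk => hk)
      exact h1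

end Pool.Agent.Helper83.UMC
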