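import Pool.Agent.Helper83.UMC.Sel

/-!
The levels of the projective hierarchy, and uniformization up to meager sets for one level.
-/

set_option autoImplicit false

namespace Pool.Agent.Helper83.UMC

open Set Filter Topology PiNat Pool.Agent.Helper91.PU

/-- `Sig 0` are the Borel sets, `Sig (n + 1)` the projections along the Baire space of the sets
whose complement is in `Sig n`: for `n ≥ 1` the class `Sig n` is the class of `Σ¹_n` sets -/
def Sig : ℕ → (Y : Type) → [TopologicalSpace Y] → Set Y → Prop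
  | 0, Y, _, A => @MeasurableSet Y (borel Y) A
  | n + 1, Y, _, A => ∃ C : Set (Y × Bs), Sig n (Y × Bs) Cᶜ ∧ A = Prod.fst '' C

/-- every relation in the class `K` is uniformizable up to meager sets -/
def UMr (K : Set (Bs × Bs) → Prop) : Prop :=
  ∀ R : Set (Bs × Bs), K R → ∀ A : Set Bs, MeasurableSet A → ¬ IsMeagre A →
    ∃ B ⊆ A, MeasurableSet B ∧ ¬ IsMeagre B ∧ (B ∩ Prod.fst '' R = ∅ ∨
      (B ⊆ Prod.fst '' R ∧ ∃ f : B → Bs, Measurable f ∧ ∀ x : B, ((x : Bs), f x) ∈ R))

/-- uniformization up to meager sets for the `Π¹_n` relations -/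
def UMPi (n : ℕ) : Prop := UMr fun R => Sig n (Bs × Bs) Rᶜ

theorem Sig.preimage : ∀ {n : ℕ} {Y : Type} [TopologicalSpace Y] [SecondCountableTopology Y]
    {A : Set Y}, Sig n Y A → ∀ (Z : Type) [TopologicalSpace Z] [SecondCountableTopology Z]
      (f : Z → Y), @Measurable Z Y (borel Z) (borel Y) f → Sig n Z (f ⁻¹' A) := by
  intro n
  induction n with
  | zero =>
    intro Y _ _ A hA Z _ _ f hf
    exact hf hA
  | succ n ih =>
    intro Y _ _ A hA Z _ _ f hf
    obtain ⟨C, hC, rfl⟩ := hA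
    refine ⟨(fun p : Z × Bs => (f p.1, p.2)) ⁻¹' C, ?_, ?_⟩
    · rw [← preimage_compl]
      refine ih hC (Z × Bs) _ ?_
      let mZ : MeasurableSpace Z := borel Z
      have bZ : BorelSpace Z := ⟨rfl⟩
      let mY : MeasurableSpace Y := borel Y
      have bY : BorelSpace Y := ⟨rfl⟩
      have h2 : borel (Z × Bs) = (inferInstance : MeasurableSpace (Z × Bs)) :=
        (BorelSpace.measurable_eq (α := Z × Bs)).symm
      have h3 : borel (Y × Bs) = (inferInstance : MeasurableSpace (Y × Bs)) :=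
        (BorelSpace.measurable_eq (α := Y × Bs)).symm
      rw [h2, h3]
      have hf' : Measurable f := hf
      exact (hf'.comp measurable_fst).prodMk measurable_snd
    · ext z
      constructor
      · rintro ⟨⟨y, w⟩, hyw, h2⟩
        refine ⟨(z, w), ?_, rfl⟩
        have h3 : y = f z := h2
        subst h3
        exact hyw
      · rintro ⟨⟨z', w⟩, hzw, h2⟩
        have h3 : z' = z := h2
        subst h3
        exact ⟨(f z', w), hzw, rfl⟩

theorem Sig.preimage' {n : ℕ} {Y Z : Type} [TopologicalSpace Y] [TopologicalSpace Z]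
    [SecondCountableTopology Y] [SecondCountableTopology Z] [MeasurableSpace Y] [BorelSpace Y]
    [MeasurableSpace Z] [BorelSpace Z] {A : Set Y} (h : Sig n Y A) {f : Z → Y}
    (hf : Measurable f) : Sig n Z (f ⁻¹' A) := by
  refine h.preimage Z f ?_
  rw [← BorelSpace.measurable_eq (α := Z), ← BorelSpace.measurable_eq (α := Y)]
  exact hf

theorem Sig.borel_inter_union : ∀ {n : ℕ} {Y : Type} [TopologicalSpace Y]
    [SecondCountableTopology Y] {B : Set Y}, Sig n Y B → ∀ A : Set Y,
      @MeasurableSet Y (borel Y) A → Sig n Y (A ∩ B) ∧ Sig n Y (A ∪ B) := by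
  intro n
  induction n with
  | zero =>
    intro Y _ _ B hB A hA
    exact ⟨MeasurableSet.inter hA hB, MeasurableSet.union hA hB⟩
  | succ n ih =>
    intro Y _ _ B hB A hA
    obtain ⟨C, hC, rfl⟩ := hB
    have hm : @MeasurableSet (Y × Bs) (borel (Y × Bs)) (Prod.fst ⁻¹' A) := by
      let mY : MeasurableSpace Y := borel Y
      have bY : BorelSpace Y := ⟨rfl⟩
      have h2 : borel (Y × Bs) = (inferInstance : MeasurableSpace (Y × Bs)) :=
        (BorelSpace.measurable_eq (α := Y × Bs)).symm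
      rw [h2]
      exact measurable_fst hA
    obtain ⟨h1, h2⟩ := ih hC (Prod.fst ⁻¹' A)ᶜ hm.compl
    constructor
    · refine ⟨Prod.fst ⁻¹' A ∩ C, ?_, ?_⟩
      · rw [compl_inter]
        exact h2
      · rw [inter_comm, inter_comm (Prod.fst ⁻¹' A), image_inter_preimage]
    · refine ⟨Prod.fst ⁻¹' A ∪ C, ?_, ?_⟩
      · rw [compl_union]
        exact h1
      · rw [image_union, image_preimage_eq]
        exact Prod.fst_surjective

theorem Sig.inter_measurable {n : ℕ} {Y : Type} [TopologicalSpace Y] [SecondCountableTopology Y]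
    [MeasurableSpace Y] [BorelSpace Y] {A B : Set Y} (hB : Sig n Y B) (hA : MeasurableSet A) :
    Sig n Y (B ∩ A) := by
  rw [inter_comm]
  refine (hB.borel_inter_union A ?_).1
  rw [← BorelSpace.measurable_eq (α := Y)]
  exact hA

theorem Sig.union_measurable {n : ℕ} {Y : Type} [TopologicalSpace Y] [SecondCountableTopology Y]
    [MeasurableSpace Y] [BorelSpace Y] {A B : Set Y} (hB : Sig n Y B) (hA : MeasurableSet A) :
    Sig n Y (B ∪ A) := by
  rw [union_comm]
  refine (hB.borel_inter_union A ?_).2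
  rw [← BorelSpace.measurable_eq (α := Y)]
  exact hA

/-- a set in `Sig n` has its complement in `Sig (n + 1)` -/
theorem Sig.succ_compl {n : ℕ} {Y : Type} [TopologicalSpace Y] [SecondCountableTopology Y]
    {A : Set Y} (hA : Sig n Y A) : Sig (n + 1) Y Aᶜ := by
  refine ⟨Prod.fst ⁻¹' Aᶜ, ?_, ?_⟩
  · rw [← preimage_compl, compl_compl]
    refine hA.preimage (Y × Bs) Prod.fst ?_
    let mY : MeasurableSpace Y := borel Y
    have bY : BorelSpace Y := ⟨rfl⟩
    have h2 : borel (Y × Bs) = (inferInstance : MeasurableSpace (Y × Bs)) :=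
      (BorelSpace.measurable_eq (α := Y × Bs)).symm
    rw [h2]
    exact measurable_fst
  · rw [image_preimage_eq]
    exact Prod.fst_surjective

/-- `Sig (n + 1)` is closed under projections -/
theorem Sig.proj {n : ℕ} {Y : Type} [TopologicalSpace Y] [SecondCountableTopology Y]
    {A : Set (Y × Bs)} (hA : Sig (n + 1) (Y × Bs) A) : Sig (n + 1) Y (Prod.fst '' A) := by
  obtain ⟨C, hC, rfl⟩ := hA
  refine ⟨(fun p : Y × Bs => ((p.1, (homBs p.2).1), (homBs p.2).2)) ⁻¹' C, ?_, ?_⟩
  · rw [← preimage_compl]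
    let mY : MeasurableSpace Y := borel Y
    have bY : BorelSpace Y := ⟨rfl⟩
    refine hC.preimage' ?_
    have h1 : Measurable fun p : Y × Bs => homBs p.2 :=
      homBs.continuous.measurable.comp measurable_snd
    exact (measurable_fst.prodMk (measurable_fst.comp h1)).prodMk (measurable_snd.comp h1)
  · ext y
    constructor
    · rintro ⟨p, ⟨⟨⟨y', z⟩, w⟩, hq, rfl⟩, rfl⟩
      refine ⟨(y', homBs.symm (z, w)), ?_, rfl⟩
      show ((y', (homBs (homBs.symm (z, w))).1), (homBs (homBs.symm (z, w))).2) ∈ C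
      rw [homBs.apply_symm_apply]
      exact hq
    · rintro ⟨⟨y', v⟩, hv, rfl⟩
      exact ⟨(y', (homBs v).1), ⟨((y', (homBs v).1), (homBs v).2), hv, rfl⟩, rfl⟩

theorem Sig.toProj : ∀ {n : ℕ} {Y : Type} [TopologicalSpace Y] {A : Set Y}, Sig n Y A →
    Proj Y A := by
  intro n
  induction n with
  | zero =>
    intro Y _ A hA
    exact Proj.borel hA
  | succ n ih =>
    intro Y _ A hA
    obtain ⟨C, hC, rfl⟩ := hA
    have h1 := (ih hC).compl
    rw [compl_compl] at h1
    exact h1.proj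

/-- projective uniformization up to meager sets implies all its levels -/
theorem UM.toPi (h : UM) (n : ℕ) : UMPi n := by
  intro R hR
  have h1 := (Sig.toProj hR).compl
  rw [compl_compl] at h1
  exact h R h1

/-- a relation with nonmeager projection has a Borel uniformization on an open set up to a meager
set -/
theorem umr_open {K : Set (Bs × Bs) → Prop} (h : UMr K) {R : Set (Bs × Bs)} (hR : K R)
    (hn : ¬ IsMeagre (Prod.fst '' R)) :
    ∃ U : Set Bs, IsOpen U ∧ U.Nonempty ∧ ∃ f : Bs → Bs, Measurable f ∧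
      ∀ᶠ x in residual Bs, x ∈ U → (x, f x) ∈ R := by
  set P : Set Bs := Prod.fst '' R with hP
  set T : Set (Set Bs) := {W | W ∈ TopologicalSpace.countableBasis Bs ∧ IsMeagre (P ∩ W)} with hT
  have hTc : T.Countable := (TopologicalSpace.countable_countableBasis Bs).mono fun W hW => hW.1
  set O : Set Bs := ⋃₀ T with hO
  have hOo : IsOpen O := isOpen_sUnion fun W hW =>
    TopologicalSpace.isOpen_of_mem_countableBasis hW.1
  have hPO : ∀ᶠ x in residual Bs, x ∈ P → x ∉ O := by
    have h1 : ∀ᶠ x in residual Bs, ∀ W (_ : W ∈ T), x ∈ P → x ∉ W := by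
      rw [eventually_countable_ball hTc]
      intro W hW
      have h2 : ∀ᶠ x in residual Bs, x ∈ (P ∩ W)ᶜ := hW.2
      filter_upwards [h2] with x hx hxP hxW
      exact hx ⟨hxP, hxW⟩
    filter_upwards [h1] with x hx hxP
    rintro ⟨W, hW, hxW⟩
    exact hx W hW hxP hxW
  set A : Set Bs := (closure O)ᶜ with hA
  have hAo : IsOpen A := isClosed_closure.isOpen_compl
  have hAne : A.Nonempty := by
    by_contra hem
    rw [not_nonempty_iff_eq_empty, hA, compl_empty_iff] at hem
    have hd : Dense O := dense_iff_closure_eq.2 hem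
    apply hn
    have h1 : ∀ᶠ x in residual Bs, x ∈ Pᶜ := by
      filter_upwards [hPO, residual_of_dense_open hOo hd] with x hx1 hx2 hxP
      exact hx1 hxP hx2
    exact h1
  obtain ⟨B, hBA, hBm, hBn, hB⟩ := h R hR A hAo.measurableSet (nonmeager_of_open hAo hAne)
  obtain ⟨U, hUA, hU, hUne, hUB⟩ := open_of_nonmeagre hBm.baireMeasurableSet hAo hBA hBn
  rcases hB with hB | ⟨hBP, f, hf, hfR⟩
  · exfalso
    obtain ⟨x, hx⟩ := hUne
    obtain ⟨W, hW, hxW, hWU⟩ :=
      (TopologicalSpace.isBasis_countableBasis Bs).exists_subset_of_mem_open hx hU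
    have hWT : W ∈ T := by
      refine ⟨hW, ?_⟩
      have h1 : ∀ᶠ x in residual Bs, x ∈ (P ∩ W)ᶜ := by
        filter_upwards [hUB] with y hy
        rintro ⟨hyP, hyW⟩
        have : y ∈ B ∩ P := ⟨hy (hWU hyW), hyP⟩
        rw [hB] at this
        exact this
      exact h1
    have hxO : x ∈ closure O := subset_closure ⟨W, hWT, hxW⟩
    exact hUA hx hxO
  · obtain ⟨g, hg, hgf⟩ := (MeasurableEmbedding.subtype_coe hBm).exists_measurable_extend hf
      fun _ => ⟨fun _ => 0⟩
    refine ⟨U, hU, hUne, g, hg, ?_⟩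
    filter_upwards [hUB] with x hx hxU
    have h1 : g x = f ⟨x, hx hxU⟩ := congrFun hgf ⟨x, hx hxU⟩
    rw [h1]
    exact hfR ⟨x, hx hxU⟩

/-- unions of meager sets, given by a relation of the class, over a thin set are meager -/
theorem umr_thin {K : Set (Bs × Bs) → Prop} (h : UMr K) {D : Set Bs} (hthin : Thin D)
    {M : Set (Bs × Bs)} (hM : K M) (hMD : ∀ p ∈ M, p.2 ∈ D)
    (hm : ∀ d ∈ D, IsMeagre {x | (x, d) ∈ M}) : IsMeagre (Prod.fst '' M) := by
  by_contra hn
  obtain ⟨U, hU, hUne, f, hf, hfR⟩ := umr_open h hM hn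
  obtain ⟨t, hts, htG, htd⟩ := mem_residual.1 hfR
  have hB : MeasurableSet (t ∩ U) := htG.measurableSet.inter hU.measurableSet
  have hBD : f '' (t ∩ U) ⊆ D := by
    rintro _ ⟨x, ⟨hxt, hxU⟩, rfl⟩
    exact hMD _ (hts hxt hxU)
  have han : MeasureTheory.AnalyticSet (f '' (t ∩ U)) := hB.analyticSet_image hf
  have hcount : (f '' (t ∩ U)).Countable :=
    analytic_countable han fun P hP hPp => hthin P (hP.trans hBD) hPp
  refine not_meagre_inter (residual_of_dense_Gδ htG htd) hU hUne ?_
  have h1 : t ∩ U ⊆ ⋃ d ∈ f '' (t ∩ U), {x | (x, d) ∈ M} := by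
    intro x hx
    exact mem_iUnion₂.2 ⟨f x, ⟨x, hx, rfl⟩, hts hx.1 hx.2⟩
  exact (isMeagre_biUnion hcount fun d hd => hm d (hBD hd)).mono h1

end Pool.Agent.Helper83.UMC
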