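import Pool.Agent.Helper83.UMC.Real
import Pool.Agent.Helper55.Analytic

/-!
Measurability of all sets of one projective level is not compatible with a thin uncountable set of
this level and uniformization up to meager sets.
-/

set_option autoImplicit false

namespace Pool.Agent.Helper83.UMC

open Set Filter Topology PiNat Pool.Agent.Helper91.PU MeasureTheory

/-- from Lebesgue measurability to measurability for all Borel probability measures -/
theorem univ_meas {Y : Type} [TopologicalSpace Y] [PolishSpace Y] [MeasurableSpace Y]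
    [BorelSpace Y] (μ : Measure Y) [IsProbabilityMeasure μ] {A : Set Y}
    (hA : ∀ T : ℝ → Y, Measurable T → NullMeasurableSet (T ⁻¹' A) volume) :
    NullMeasurableSet A μ := by
  have hYne : Nonempty Y := nonempty_of_isProbabilityMeasure μ
  obtain ⟨T, hT, hTμ⟩ := Measure.exists_measurable_map_eq μ
  have hnull : ∀ B : Set Y, (∀ T : ℝ → Y, Measurable T → NullMeasurableSet (T ⁻¹' B) volume) →
      ∃ K ⊆ B, NullMeasurableSet K μ ∧ volume (T ⁻¹' B) ≤ μ K := by
    intro B hB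
    have h1 : Measurable fun x : ℝ => T (projIcc (0 : ℝ) 1 zero_le_one x) :=
      hT.comp continuous_projIcc.measurable
    have h2 : NullMeasurableSet ((fun x : ℝ => T (projIcc (0 : ℝ) 1 zero_le_one x)) ⁻¹' B) volume :=
      hB _ h1
    have h3 : NullMeasurableSet (T ⁻¹' B) volume := by
      have h4 : T ⁻¹' B = (Subtype.val : unitInterval → ℝ) ⁻¹'
          ((fun x : ℝ => T (projIcc (0 : ℝ) 1 zero_le_one x)) ⁻¹' B) := by
        ext x
        simp only [mem_preimage]
        rw [projIcc_val]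
      rw [h4]
      refine (h2.mono_ac ?_).preimage
        (measurePreserving_subtype_coe (μa := volume) measurableSet_Icc).quasiMeasurePreserving
      exact Measure.restrict_le_self.absolutelyContinuous
    obtain ⟨C, hCB, hC, hCe⟩ := h3.exists_measurable_subset_ae_eq
    have hK : NullMeasurableSet (T '' C) μ :=
      Pool.Agent.Helper55.Beer.analytic_nullMeasurable μ (hC.analyticSet_image hT)
    refine ⟨T '' C, ?_, hK, ?_⟩
    · rintro _ ⟨x, hx, rfl⟩
      exact hCB hx
    · rw [← measure_congr hCe, ← hTμ]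
      rw [← hTμ] at hK
      rw [Measure.map_apply₀ hT.aemeasurable hK]
      exact measure_mono (subset_preimage_image T C)
  obtain ⟨K, hKA, hK, hKm⟩ := hnull A hA
  obtain ⟨K', hKA', hK', hKm'⟩ := hnull Aᶜ fun T hT => (hA T hT).compl
  have hdis : Disjoint K K' := by
    rw [disjoint_left]
    intro x hx hx'
    exact hKA' hx' (hKA hx)
  have hsum : 1 ≤ μ (K ∪ K') := by
    rw [measure_union₀ hK' hdis.aedisjoint]
    have h1 : (1 : ENNReal) = volume (univ : Set unitInterval) := by simp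
    rw [h1, ← union_compl_self (T ⁻¹' A), ← preimage_compl]
    exact (measure_union_le _ _).trans (add_le_add hKm hKm')
  have h1 : μ (K ∪ K')ᶜ = 0 := by
    rw [prob_compl_eq_zero_iff₀ (hK.union hK')]
    exact le_antisymm prob_le_one hsum
  refine hK.congr ?_
  refine (ae_eq_of_subset_of_measure_ge hKA ?_ hK (measure_ne_top μ _))
  calc μ A ≤ μ (K ∪ (K ∪ K')ᶜ) := by
        apply measure_mono
        intro x hx
        by_cases hxK : x ∈ K
        · exact Or.inl hxK
        · refine Or.inr ?_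
          rintro (h2 | h2)
          · exact hxK h2
          · exact hKA' h2 hx
    _ ≤ μ K + μ (K ∪ K')ᶜ := measure_union_le _ _
    _ = μ K := by rw [h1, add_zero]

/-- a thin uncountable set gives a nonmeasurable set of the same level -/
theorem not_measurable {m : ℕ} (h : UMPi (m + 2)) {D : Set Bs} (hD : Sig (m + 1) Bs D)
    (hthin : Thin D) (hunc : ¬ D.Countable) :
    ∃ A : Set ℝ, Sig (m + 1) ℝ A ∧ ¬ NullMeasurableSet A volume := by
  by_contra hcon
  have hLM : ∀ A : Set ℝ, Sig (m + 1) ℝ A → NullMeasurableSet A volume := by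
    intro A hA
    by_contra h1
    exact hcon ⟨A, hA, h1⟩
  obtain ⟨a, hac, ha⟩ := guess_thin h hD hthin (ε := fun n => (1 / 2) ^ n) (fun n => by positivity)
  set μ : Measure ℝ := volume.restrict (Icc 0 1) with hμ
  have hprob : IsProbabilityMeasure μ := ⟨by rw [hμ]; simp⟩
  have hnull : ∀ d : Bs, μ {r : ℝ | ∃ᶠ n in atTop, |r - a n d| < (1 / 2) ^ n} = 0 := by
    intro d
    exact le_antisymm ((Measure.restrict_apply_le _ _).trans (null_freq fun n => a n d).le) zero_le
  set Z : Set (ℝ × ℝ) := {p | ∃ d ∈ D, (¬ ∃ᶠ n in atTop, |p.1 - a n d| < (1 / 2) ^ n) ∧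
    ∃ᶠ n in atTop, |p.2 - a n d| < (1 / 2) ^ n} with hZ
  have hmeas : ∀ u : (ℝ × ℝ) × Bs → ℝ, Measurable u →
      MeasurableSet {q : (ℝ × ℝ) × Bs | ∃ᶠ n in atTop, |u q - a n q.2| < (1 / 2) ^ n} := by
    intro u hu
    have h1 : {q : (ℝ × ℝ) × Bs | ∃ᶠ n in atTop, |u q - a n q.2| < (1 / 2) ^ n} =
        ⋂ m : ℕ, ⋃ n : ℕ, ⋃ _ : m ≤ n, {q : (ℝ × ℝ) × Bs | |u q - a n q.2| < (1 / 2) ^ n} := by
      ext q
      simp [frequently_atTop]
    rw [h1]
    refine MeasurableSet.iInter fun m => MeasurableSet.iUnion fun n => MeasurableSet.iUnion fun _ => ?_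
    refine measurableSet_lt ?_ measurable_const
    have h2 : Measurable fun q : (ℝ × ℝ) × Bs => u q - a n q.2 :=
      hu.sub ((hac n).measurable.comp measurable_snd)
    exact h2.norm
  have hZP : Sig (m + 1) (ℝ × ℝ) Z := by
    have h1 : Z = Prod.fst '' ((Prod.snd ⁻¹' D) ∩
        ({q : (ℝ × ℝ) × Bs | ∃ᶠ n in atTop, |q.1.1 - a n q.2| < (1 / 2) ^ n}ᶜ ∩
        {q : (ℝ × ℝ) × Bs | ∃ᶠ n in atTop, |q.1.2 - a n q.2| < (1 / 2) ^ n})) := by
      ext p
      constructor
      · rintro ⟨d, h1, h2, h3⟩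
        exact ⟨(p, d), ⟨h1, h2, h3⟩, rfl⟩
      · rintro ⟨⟨p', d⟩, ⟨h1, h2, h3⟩, rfl⟩
        exact ⟨d, h1, h2, h3⟩
    rw [h1]
    refine Sig.proj (Sig.inter_measurable (hD.preimage' measurable_snd) ?_)
    exact (hmeas _ (measurable_fst.comp measurable_fst)).compl.inter
      (hmeas _ (measurable_snd.comp measurable_fst))
  have hZm : NullMeasurableSet Z (μ.prod μ) :=
    univ_meas (μ.prod μ) fun T hT => hLM _ (hZP.preimage' hT)
  obtain ⟨K, hKZ, hK, hKe⟩ := hZm.exists_measurable_subset_ae_eq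
  have hK0 : (μ.prod μ) K = 0 := by
    rw [Measure.measure_prod_null hK]
    refine Eventually.of_forall fun r => ?_
    have h1 : Prod.mk r ⁻¹' K ⊆ ⋃ d ∈ {d | d ∈ D ∧ ¬ ∃ᶠ n in atTop, |r - a n d| < (1 / 2) ^ n},
        {r' : ℝ | ∃ᶠ n in atTop, |r' - a n d| < (1 / 2) ^ n} := by
      intro r' hr'
      obtain ⟨d, h1, h2, h3⟩ := hKZ hr'
      exact mem_iUnion₂.2 ⟨d, ⟨h1, h2⟩, h3⟩
    exact measure_mono_null h1 ((measure_biUnion_null_iff (ha r)).2 fun d _ => hnull d)
  have hZ0 : (μ.prod μ) Z = 0 := by rw [← measure_congr hKe]; exact hK0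
  have hZs : (μ.prod μ) (Prod.swap ⁻¹' Z) = 0 :=
    Measure.measurePreserving_swap.quasiMeasurePreserving.preimage_null hZ0
  have h1 : ∀ᵐ p ∂(μ.prod μ), p ∉ Prod.swap ⁻¹' Z := measure_eq_zero_iff_ae_notMem.1 hZs
  obtain ⟨r', hr'⟩ := (Measure.ae_ae_of_ae_prod h1).exists
  have h2 : ∃ d ∈ D, ∃ᶠ n in atTop, |r' - a n d| < (1 / 2) ^ n := by
    by_contra hcon
    push Not at hcon
    apply hunc
    have hsub : D ⊆ {d | d ∈ D ∧ ¬ ∃ᶠ n in atTop, |r' - a n d| < (1 / 2) ^ n} := by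
      intro d hd
      refine ⟨hd, ?_⟩
      rw [not_frequently]
      exact (hcon d hd).mono fun n hn => not_lt.2 hn
    exact (ha r').mono hsub
  obtain ⟨d, hd, hdr⟩ := h2
  have h3 : ∀ᵐ r ∂μ, r ∈ {r : ℝ | ∃ᶠ n in atTop, |r - a n d| < (1 / 2) ^ n} := by
    filter_upwards [hr'] with r hr
    by_contra hc
    exact hr ⟨d, hd, hc, hdr⟩
  have h4 : ∀ᵐ r ∂μ, r ∉ {r : ℝ | ∃ᶠ n in atTop, |r - a n d| < (1 / 2) ^ n} :=
    measure_eq_zero_iff_ae_notMem.1 (hnull d)
  obtain ⟨r, hr1, hr2⟩ := (h3.and h4).exists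
  exact hr2 hr1

end Pool.Agent.Helper83.UMC
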