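import Mathlib

/-!
The perfect set theorem for analytic sets.
-/

set_option autoImplicit false

namespace Pool.Agent.Helper83.UMC

open Set Filter Topology PiNat CantorScheme

section Split

variable {X Y : Type} [MetricSpace X] [SecondCountableTopology X] [TopologicalSpace Y] [T2Space Y]

/-- splitting a closed set with uncountable image -/
theorem split {f : X → Y} (hf : Continuous f) {C : Set X} (hC : IsClosed C)
    (hun : ¬ (f '' C).Countable) {ε : ENNReal} (hε : 0 < ε) :
    ∃ C₀ C₁ : Set X, (IsClosed C₀ ∧ ¬ (f '' C₀).Countable ∧ C₀ ⊆ C ∧ Metric.ediam C₀ ≤ ε) ∧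
      (IsClosed C₁ ∧ ¬ (f '' C₁).Countable ∧ C₁ ⊆ C ∧ Metric.ediam C₁ ≤ ε) ∧
      Disjoint (f '' C₀) (f '' C₁) := by
  classical
  set K : Set X := {x | x ∈ C ∧ ∀ V : Set X, IsOpen V → x ∈ V → ¬ (f '' (C ∩ V)).Countable}
    with hK
  have h1 : (f '' (C \ K)).Countable := by
    set T : Set (Set X) := {V | V ∈ TopologicalSpace.countableBasis X ∧ (f '' (C ∩ V)).Countable}
      with hT
    have hTc : T.Countable := (TopologicalSpace.countable_countableBasis X).mono fun V hV => hV.1
    have h2 : f '' (C \ K) ⊆ ⋃ V ∈ T, f '' (C ∩ V) := by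
      rintro _ ⟨x, ⟨hxC, hxK⟩, rfl⟩
      have h3 : ∃ V : Set X, IsOpen V ∧ x ∈ V ∧ (f '' (C ∩ V)).Countable := by
        by_contra hcon
        push Not at hcon
        exact hxK ⟨hxC, fun V hV hxV => hcon V hV hxV⟩
      obtain ⟨V, hV, hxV, hc⟩ := h3
      obtain ⟨B, hB, hxB, hBV⟩ :=
        (TopologicalSpace.isBasis_countableBasis X).exists_subset_of_mem_open hxV hV
      refine mem_iUnion₂.2 ⟨B, ⟨hB, hc.mono ?_⟩, ⟨x, ⟨hxC, hxB⟩, rfl⟩⟩
      exact image_mono (inter_subset_inter_right _ hBV)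
    exact (hTc.biUnion fun V hV => hV.2).mono h2
  have h4 : ¬ (f '' K).Countable := by
    intro h5
    apply hun
    refine (h5.union h1).mono ?_
    rintro _ ⟨x, hx, rfl⟩
    by_cases hxK : x ∈ K
    · exact Or.inl ⟨x, hxK, rfl⟩
    · exact Or.inr ⟨x, ⟨hx, hxK⟩, rfl⟩
  have h6 : (f '' K).Nontrivial := by
    by_contra h7
    rw [not_nontrivial_iff] at h7
    exact h4 h7.countable
  obtain ⟨_, ⟨x₀, hx₀, rfl⟩, _, ⟨x₁, hx₁, rfl⟩, hne⟩ := h6
  obtain ⟨U₀, U₁, hU₀, hU₁, hm₀, hm₁, hd⟩ := t2_separation hne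
  have key : ∀ x ∈ K, ∀ U : Set Y, IsOpen U → f x ∈ U →
      ∃ C' : Set X, IsClosed C' ∧ ¬ (f '' C').Countable ∧ C' ⊆ C ∧ Metric.ediam C' ≤ ε ∧
        f '' C' ⊆ U := by
    intro x hx U hU hxU
    have hnh : f ⁻¹' U ∈ 𝓝 x := (hU.preimage hf).mem_nhds hxU
    obtain ⟨δ, hδ, hδU⟩ := EMetric.mem_nhds_iff.1 hnh
    have hpos : 0 < min (δ / 2) (ε / 2) := by
      refine lt_min ?_ ?_
      · exact ENNReal.half_pos hδ.ne'
      · exact ENNReal.half_pos hε.ne'
    refine ⟨C ∩ Metric.closedEBall x (min (δ / 2) (ε / 2)), hC.inter Metric.isClosed_closedEBall,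
      ?_, inter_subset_left, ?_, ?_⟩
    · intro hc
      refine hx.2 (Metric.eball x (min (δ / 2) (ε / 2))) Metric.isOpen_eball
        (Metric.mem_eball_self hpos) (hc.mono ?_)
      exact image_mono (inter_subset_inter_right _ Metric.eball_subset_closedEBall)
    · refine (Metric.ediam_mono inter_subset_right).trans (Metric.ediam_closedEBall_le.trans ?_)
      calc 2 * min (δ / 2) (ε / 2) ≤ 2 * (ε / 2) := by gcongr; exact min_le_right _ _
        _ = ε := ENNReal.mul_div_cancel (by norm_num) (by norm_num)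
    · rintro _ ⟨z, ⟨_, hz⟩, rfl⟩
      by_cases hδt : δ = ⊤
      · exact hδU (by
          subst hδt
          rw [Metric.mem_eball]
          exact edist_lt_top _ _)
      · apply hδU
        rw [Metric.mem_eball]
        rw [Metric.mem_closedEBall] at hz
        calc edist z x ≤ min (δ / 2) (ε / 2) := hz
          _ ≤ δ / 2 := min_le_left _ _
          _ < δ := ENNReal.half_lt_self hδ.ne' hδt
  obtain ⟨C₀, a1, a2, a3, a4, a5⟩ := key x₀ hx₀ U₀ hU₀ hm₀
  obtain ⟨C₁, b1, b2, b3, b4, b5⟩ := key x₁ hx₁ U₁ hU₁ hm₁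
  exact ⟨C₀, C₁, ⟨a1, a2, a3, a4⟩, ⟨b1, b2, b3, b4⟩, hd.mono a5 b5⟩

end Split

/-- the perfect set theorem for continuous images of complete metric spaces -/
theorem cantor_of_image {X Y : Type} [MetricSpace X] [CompleteSpace X] [SecondCountableTopology X]
    [TopologicalSpace Y] [T2Space Y] {f : X → Y} (hf : Continuous f) (hun : ¬ (range f).Countable) :
    ∃ g : (ℕ → Bool) → Y, range g ⊆ range f ∧ Continuous g ∧ Function.Injective g := by
  obtain ⟨u, -, upos', hu⟩ := exists_seq_strictAnti_tendsto' (zero_lt_one' ENNReal)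
  have upos := fun n => (upos' n).1
  let P := Subtype fun E : Set X => IsClosed E ∧ ¬ (f '' E).Countable
  choose C0 C1 h0 h1 hdisj using
    fun {C : Set X} (hC : IsClosed C) (hC' : ¬ (f '' C).Countable) {ε : ENNReal} (hε : 0 < ε) =>
    split hf hC hC' hε
  let DP : List Bool → P := fun l => by
    induction l with
    | nil => exact ⟨univ, isClosed_univ, by rwa [image_univ]⟩
    | cons a l ih =>
      cases a
      · exact ⟨C0 ih.2.1 ih.2.2 (upos (l.length + 1)), (h0 _ _ _).1, (h0 _ _ _).2.1⟩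
      · exact ⟨C1 ih.2.1 ih.2.2 (upos (l.length + 1)), (h1 _ _ _).1, (h1 _ _ _).2.1⟩
  let D : List Bool → Set X := fun l => (DP l).val
  have hanti : ClosureAntitone D := by
    refine Antitone.closureAntitone ?_ fun l => (DP l).property.1
    intro l a
    cases a
    · exact (h0 _ _ _).2.2.1
    · exact (h1 _ _ _).2.2.1
  have hdiam : VanishingDiam D := by
    intro x
    apply tendsto_of_tendsto_of_tendsto_of_le_of_le' tendsto_const_nhds hu
    · simp
    rw [eventually_atTop]
    refine ⟨1, fun m (hm : 1 ≤ m) => ?_⟩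
    rw [Nat.one_le_iff_ne_zero] at hm
    rcases Nat.exists_eq_succ_of_ne_zero hm with ⟨n, rfl⟩
    dsimp
    cases x n
    · convert! (h0 _ _ _).2.2.2
      rw [PiNat.res_length]
    · convert! (h1 _ _ _).2.2.2
      rw [PiNat.res_length]
  have hne : ∀ l, (D l).Nonempty := by
    intro l
    by_contra hem
    rw [not_nonempty_iff_eq_empty] at hem
    apply (DP l).property.2
    have : (DP l).val = ∅ := hem
    rw [this, image_empty]
    exact countable_empty
  have hdom : ∀ {x : ℕ → Bool}, x ∈ (inducedMap D).1 := fun {x} => by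
    rw [hanti.map_of_vanishingDiam hdiam hne]
    apply mem_univ
  refine ⟨fun x => f ((inducedMap D).2 ⟨x, hdom⟩), ?_, ?_, ?_⟩
  · rintro y ⟨x, rfl⟩
    exact ⟨_, rfl⟩
  · apply hf.comp
    apply hdiam.map_continuous.comp
    fun_prop
  · intro x y hxy
    by_contra hne'
    have hxy' : f ((inducedMap D).2 ⟨x, hdom⟩) = f ((inducedMap D).2 ⟨y, hdom⟩) := hxy
    obtain ⟨n, hn, hmin⟩ : ∃ n, x n ≠ y n ∧ ∀ m < n, x m = y m := by
      have hex : ∃ n, x n ≠ y n := by
        by_contra h
        push Not at h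
        exact hne' (funext h)
      classical
      refine ⟨Nat.find hex, Nat.find_spec hex, fun m hm => ?_⟩
      by_contra h
      exact Nat.find_min hex hm h
    have hres : res x n = res y n := by
      rw [res_eq_res]
      intro m hm
      exact hmin m hm
    have hx1 : (inducedMap D).2 ⟨x, hdom⟩ ∈ D (res x (n + 1)) := map_mem ⟨x, hdom⟩ (n + 1)
    have hy1 : (inducedMap D).2 ⟨y, hdom⟩ ∈ D (res y (n + 1)) := map_mem ⟨y, hdom⟩ (n + 1)
    rw [res_succ] at hx1 hy1
    rw [← hres] at hy1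
    have hdis : Disjoint (f '' D (false :: res x n)) (f '' D (true :: res x n)) := hdisj _ _ _
    rcases hbx : x n with _ | _ <;> rcases hby : y n with _ | _
    · exact hn (hbx.trans hby.symm)
    · rw [hbx] at hx1
      rw [hby] at hy1
      exact disjoint_left.1 hdis ⟨_, hx1, rfl⟩ ⟨_, hy1, hxy'.symm⟩
    · rw [hbx] at hx1
      rw [hby] at hy1
      exact disjoint_left.1 hdis ⟨_, hy1, rfl⟩ ⟨_, hx1, hxy'⟩
    · exact hn (hbx.trans hby.symm)

/-- an analytic set which contains no nonempty perfect set is countable -/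
theorem analytic_countable {Y : Type} [TopologicalSpace Y] [PolishSpace Y] {S : Set Y}
    (hS : MeasureTheory.AnalyticSet S) (hthin : ∀ P ⊆ S, Perfect P → P = ∅) : S.Countable := by
  by_contra hun
  rcases (MeasureTheory.analyticSet_iff_exists_polishSpace_range.1 hS) with ⟨β, tβ, pβ, f, hf, rfl⟩
  let := TopologicalSpace.upgradeIsCompletelyMetrizable β
  obtain ⟨g, hg, hgc, hgi⟩ := cantor_of_image hf hun
  have hcl : IsClosed (range g) := (isCompact_range hgc).isClosed
  have hunc : ¬ (range g).Countable := by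
    intro h
    have h2 : (univ : Set (ℕ → Bool)).Countable := by
      have h3 := h.preimage_of_injOn (f := g) (hgi.injOn)
      rwa [preimage_range] at h3
    have h4 : Countable (ℕ → Bool) := countable_univ_iff.1 h2
    have h5 : Cardinal.mk (ℕ → Bool) ≤ Cardinal.aleph0 := Cardinal.mk_le_aleph0_iff.2 h4
    have h6 : Cardinal.mk (ℕ → Bool) = 2 ^ Cardinal.aleph0 := by
      rw [← Cardinal.power_def, Cardinal.mk_bool, Cardinal.mk_nat]
    rw [h6] at h5
    exact absurd h5 (not_le.2 (Cardinal.cantor _))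
  obtain ⟨P, hP, hPne, hPg⟩ := exists_perfect_nonempty_of_isClosed_of_not_countable hcl hunc
  exact hPne.ne_empty (hthin P (hPg.trans hg) hP)

end Pool.Agent.Helper83.UMC
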