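import Pool.Agent.Helper83.UMC.Cov

/-!
The covering theorems for the real line.
-/

set_option autoImplicit false

namespace Pool.Agent.Helper83.UMC

open Set Filter Topology PiNat Pool.Agent.Helper91.PU Cardinal MeasureTheory

theorem real_code {ε : ℕ → ℝ} (hε : ∀ n, 0 < ε n) : ∃ (L : ℕ → ℕ) (enc : ℝ → Bs),
    (∀ r n, enc r n < L n) ∧ ∀ x : Bs, ∃ a : ℕ → Bs → ℝ, (∀ n, Continuous (a n)) ∧
      ∀ r d, ∀ᶠ n in atTop, enc r n = vv x d n → |r - a n d| < ε n := by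
  refine ⟨fun n => ⌊2 * n / ε n⌋₊ + 1, fun r n => if |r| ≤ n then ⌊(r + n) / ε n⌋₊ else 0,
    fun r n => ?_, fun x => ⟨fun n d => -n + ε n * vv x d n, fun n => ?_, fun r d => ?_⟩⟩
  · show (if |r| ≤ n then ⌊(r + n) / ε n⌋₊ else 0) < ⌊2 * n / ε n⌋₊ + 1
    split_ifs with hn
    · have h4 : r + n ≤ 2 * n := by
        have := le_abs_self r
        linarith
      have h5 : (r + n) / ε n ≤ 2 * n / ε n := div_le_div_of_nonneg_right h4 (hε n).le
      exact Nat.lt_succ_of_le (Nat.floor_le_floor h5)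
    · omega
  · have h2 : Continuous fun d : Bs => vv x d n :=
      (vv_continuous n).comp (Continuous.prodMk_right x)
    have h3 : Continuous fun d : Bs => ((vv x d n : ℕ) : ℝ) :=
      continuous_of_discreteTopology.comp h2
    exact continuous_const.add (continuous_const.mul h3)
  · filter_upwards [eventually_ge_atTop ⌈|r|⌉₊] with n hnr he
    have hrn : |r| ≤ n := (Nat.le_ceil _).trans (by exact_mod_cast hnr)
    rw [if_pos hrn] at he
    have h7 : 0 ≤ (r + n) / ε n := by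
      have := neg_abs_le r
      exact div_nonneg (by linarith) (hε n).le
    have h8 := Nat.floor_le h7
    have h9 := Nat.lt_floor_add_one ((r + n) / ε n)
    rw [he] at h8 h9
    rw [le_div_iff₀ (hε n)] at h8
    rw [div_lt_iff₀ (hε n)] at h9
    show |r - (-n + ε n * vv x d n)| < ε n
    rw [abs_lt]
    constructor
    · have := hε n
      nlinarith
    · nlinarith

/-- every real is guessed by some member of `D` -/
theorem guess_any {m : ℕ} (h : UMPi (m + 1)) {D : Set Bs} (hD : Sig (m + 1) Bs D)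
    (hunc : ¬ D.Countable) {ε : ℕ → ℝ} (hε : ∀ n, 0 < ε n) :
    ∃ a : ℕ → Bs → ℝ, (∀ n, Continuous (a n)) ∧
      ∀ r : ℝ, ∃ d ∈ D, ∃ᶠ n in atTop, |r - a n d| < ε n := by
  obtain ⟨L, enc, henc, hx⟩ := real_code hε
  obtain ⟨x, hcov⟩ := (dense_of_mem_residual (covering_any h hD hunc L)).nonempty
  obtain ⟨a, ha, hr⟩ := hx x
  refine ⟨a, ha, fun r => ?_⟩
  obtain ⟨d, hd, hf⟩ := hcov (enc r) (henc r)
  exact ⟨d, hd, (hf.and_eventually (hr r d)).mono fun n hn => hn.2 hn.1⟩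

/-- every real is guessed by all but countably many members of `D` -/
theorem guess_thin {m : ℕ} (h : UMPi (m + 2)) {D : Set Bs} (hD : Sig (m + 1) Bs D)
    (hthin : Thin D) {ε : ℕ → ℝ} (hε : ∀ n, 0 < ε n) :
    ∃ a : ℕ → Bs → ℝ, (∀ n, Continuous (a n)) ∧
      ∀ r : ℝ, {d | d ∈ D ∧ ¬ ∃ᶠ n in atTop, |r - a n d| < ε n}.Countable := by
  obtain ⟨L, enc, henc, hx⟩ := real_code hε
  obtain ⟨x, hcov⟩ := (dense_of_mem_residual (covering_thin h hD hthin L)).nonempty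
  obtain ⟨a, ha, hr⟩ := hx x
  refine ⟨a, ha, fun r => ?_⟩
  refine (hcov (enc r) (henc r)).mono ?_
  rintro d ⟨hd, hf⟩
  refine ⟨hd, ?_⟩
  by_contra hc
  apply hf
  have hc' : ∃ᶠ n in atTop, enc r n = vv x d n := by
    intro h5
    exact hc (h5.mono fun n hn => hn)
  exact (hc'.and_eventually (hr r d)).mono fun n hn => hn.2 hn.1

theorem aleph_le {D : Set Bs} (hunc : ¬ D.Countable) : ℵ₁ ≤ #D := by
  have h3 : ℵ₀ < #D := by
    rw [← not_le, le_aleph0_iff_set_countable]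
    exact hunc
  rw [← succ_aleph0]
  exact Order.succ_le_of_lt h3

/-- small sets of reals have strong measure zero -/
theorem small_smz {m : ℕ} (h : UMPi (m + 2)) {D : Set Bs} (hD : Sig (m + 1) Bs D)
    (hthin : Thin D) (hunc : ¬ D.Countable) {Y : Set ℝ} (hY : #Y < #D) {ε : ℕ → ℝ}
    (hε : ∀ n, 0 < ε n) :
    ∃ a : ℕ → ℝ, ∀ r ∈ Y, ∃ᶠ n in atTop, |r - a n| < ε n := by
  obtain ⟨a, _, ha⟩ := guess_thin h hD hthin hε
  by_contra hcon
  push Not at hcon
  have h1 : D ⊆ ⋃ r ∈ Y, {d | d ∈ D ∧ ¬ ∃ᶠ n in atTop, |r - a n d| < ε n} := by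
    intro d hd
    obtain ⟨r, hr, hr'⟩ := hcon fun n => a n d
    refine mem_iUnion₂.2 ⟨r, hr, hd, ?_⟩
    rw [not_frequently]
    exact hr'.mono fun n hn => not_lt.2 hn
  have h2 : #D ≤ #Y * ℵ₀ := by
    refine (mk_le_mk_of_subset h1).trans ?_
    refine (mk_biUnion_le _ _).trans ?_
    refine mul_le_mul' le_rfl ?_
    exact ciSup_le' fun r => le_aleph0_iff_set_countable.2 (ha r)
  have h3 : ℵ₀ < #D := by
    rw [← not_le, le_aleph0_iff_set_countable]
    exact hunc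
  rcases le_or_gt (#Y) ℵ₀ with h4 | h4
  · have h5 : #Y * ℵ₀ ≤ ℵ₀ := (mul_le_mul' h4 le_rfl).trans (by simp)
    exact absurd (h2.trans h5) (not_le.2 h3)
  · have h5 : #Y * ℵ₀ = #Y := mul_aleph0_eq h4.le
    rw [h5] at h2
    exact absurd h2 (not_le.2 hY)

theorem null_freq (b : ℕ → ℝ) : volume {r : ℝ | ∃ᶠ n in atTop, |r - b n| < (1 / 2) ^ n} = 0 := by
  apply measure_setOfPred_frequently_eq_zero
  have h1 : ∀ n : ℕ, volume {r : ℝ | |r - b n| < (1 / 2) ^ n} = 2 * ENNReal.ofReal ((1 / 2) ^ n) := by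
    intro n
    have h2 : {r : ℝ | |r - b n| < (1 / 2) ^ n} = Metric.ball (b n) ((1 / 2) ^ n) := by
      ext r
      simp [Real.dist_eq]
    rw [h2, Real.volume_ball, ENNReal.ofReal_mul (by norm_num)]
    norm_num
  simp only [h1]
  rw [ENNReal.tsum_mul_left]
  refine ENNReal.mul_ne_top (by norm_num) ?_
  exact (summable_geometric_of_lt_one (by norm_num) (by norm_num)).tsum_ofReal_ne_top

/-- the real line is the union of `#D` null sets -/
theorem cover_any {m : ℕ} (h : UMPi (m + 1)) {D : Set Bs} (hD : Sig (m + 1) Bs D)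
    (hunc : ¬ D.Countable) :
    ∃ F : Set (Set ℝ), #F ≤ #D ∧ (∀ N ∈ F, volume N = 0) ∧ ⋃₀ F = Set.univ := by
  obtain ⟨a, _, ha⟩ := guess_any h hD hunc (ε := fun n => (1 / 2) ^ n) (fun n => by positivity)
  refine ⟨(fun d => {r : ℝ | ∃ᶠ n in atTop, |r - a n d| < (1 / 2) ^ n}) '' D, mk_image_le, ?_, ?_⟩
  · rintro _ ⟨d, _, rfl⟩
    exact null_freq fun n => a n d
  · rw [eq_univ_iff_forall]
    intro r
    obtain ⟨d, hd, hr⟩ := ha r
    exact ⟨_, ⟨d, hd, rfl⟩, hr⟩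

/-- the real line is the union of `ℵ₁` null sets -/
theorem cover_thin {m : ℕ} (h : UMPi (m + 2)) {D : Set Bs} (hD : Sig (m + 1) Bs D)
    (hthin : Thin D) (hunc : ¬ D.Countable) :
    ∃ F : Set (Set ℝ), #F ≤ ℵ₁ ∧ (∀ N ∈ F, volume N = 0) ∧ ⋃₀ F = Set.univ := by
  obtain ⟨a, _, ha⟩ := guess_thin h hD hthin (ε := fun n => (1 / 2) ^ n) (fun n => by positivity)
  obtain ⟨E, hED, hE⟩ := le_mk_iff_exists_subset.1 (aleph_le hunc)
  refine ⟨(fun d => {r : ℝ | ∃ᶠ n in atTop, |r - a n d| < (1 / 2) ^ n}) '' E,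
    mk_image_le.trans hE.le, ?_, ?_⟩
  · rintro _ ⟨d, _, rfl⟩
    exact null_freq fun n => a n d
  · rw [eq_univ_iff_forall]
    intro r
    obtain ⟨d, hd, hr⟩ : ∃ d ∈ E, ∃ᶠ n in atTop, |r - a n d| < (1 / 2) ^ n := by
      by_contra hc
      push Not at hc
      have hsub : E ⊆ {d | d ∈ D ∧ ¬ ∃ᶠ n in atTop, |r - a n d| < (1 / 2) ^ n} := by
        intro d hd
        refine ⟨hED hd, ?_⟩
        rw [not_frequently]
        exact (hc d hd).mono fun n hn => not_lt.2 hn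
      have h1 : E.Countable := (ha r).mono hsub
      rw [← le_aleph0_iff_set_countable, hE] at h1
      exact absurd h1 (not_le.2 aleph0_lt_aleph_one)
    exact ⟨_, ⟨d, hd, rfl⟩, hr⟩

end Pool.Agent.Helper83.UMC
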