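import Pool.Agent.Helper91.PU.Main
import Pool.Agent.Helper83.UMC.Psp

/-!
Projective uniformization up to meager sets, and projective unions of meager sets over projective
sets without perfect subsets.
-/

set_option autoImplicit false

namespace Pool.Agent.Helper83.UMC

open Set Filter Topology PiNat Pool.Agent.Helper91.PU

/-- projective uniformization up to meager sets -/
def UM : Prop :=
  ∀ R : Set (Bs × Bs), Proj (Bs × Bs) R → ∀ A : Set Bs, MeasurableSet A → ¬ IsMeagre A →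
    ∃ B ⊆ A, MeasurableSet B ∧ ¬ IsMeagre B ∧ (B ∩ Prod.fst '' R = ∅ ∨
      (B ⊆ Prod.fst '' R ∧ ∃ f : B → Bs, Measurable f ∧ ∀ x : B, ((x : Bs), f x) ∈ R))

/-- a set without nonempty perfect subsets -/
def Thin (D : Set Bs) : Prop := ∀ P ⊆ D, Perfect P → P = ∅

theorem open_of_nonmeagre {B V : Set Bs} (hB : BaireMeasurableSet B) (hV : IsOpen V)
    (hBV : B ⊆ V) (h : ¬ IsMeagre B) :
    ∃ U ⊆ V, IsOpen U ∧ U.Nonempty ∧ ∀ᶠ x in residual Bs, x ∈ U → x ∈ B := by
  obtain ⟨U, hU, hBU⟩ := hB.residualEq_isOpen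
  refine ⟨U ∩ V, inter_subset_right, hU.inter hV, ?_, ?_⟩
  · by_contra hem
    rw [not_nonempty_iff_eq_empty] at hem
    apply h
    have h1 : ∀ᶠ x in residual Bs, x ∈ Bᶜ := by
      filter_upwards [hBU] with x hx hxB
      have hx' : x ∈ U := (iff_of_eq hx).1 hxB
      have : x ∈ U ∩ V := ⟨hx', hBV hxB⟩
      rw [hem] at this
      exact this
    exact h1
  · filter_upwards [hBU] with x hx hxU
    exact (iff_of_eq hx).2 hxU.1

theorem not_meagre_inter {G U : Set Bs} (hG : G ∈ residual Bs) (hU : IsOpen U)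
    (hne : U.Nonempty) : ¬ IsMeagre (G ∩ U) := by
  intro hm
  have h1 : (G ∩ U)ᶜ ∩ G ∈ residual Bs := inter_mem hm hG
  obtain ⟨x, hxU, hx1, hx2⟩ := (dense_of_mem_residual h1).inter_open_nonempty U hU hne
  exact hx1 ⟨hx2, hxU⟩

/-- a relation with nonmeager projection has a Borel uniformization on an open set up to a meager
set -/
theorem um_open (h : UM) {R : Set (Bs × Bs)} (hR : Proj (Bs × Bs) R)
    (hn : ¬ IsMeagre (Prod.fst '' R)) {V : Set Bs} (hV : IsOpen V) (hRV : Prod.fst '' R ⊆ V) :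
    ∃ U ⊆ V, IsOpen U ∧ U.Nonempty ∧ ∃ f : Bs → Bs, Measurable f ∧
      ∀ᶠ x in residual Bs, x ∈ U → (x, f x) ∈ R := by
  set P : Set Bs := Prod.fst '' R with hP
  set T : Set (Set Bs) := {W | W ∈ TopologicalSpace.countableBasis Bs ∧ IsMeagre (P ∩ W)} with hT
  have hTc : T.Countable := (TopologicalSpace.countable_countableBasis Bs).mono fun W hW => hW.1
  set O : Set Bs := ⋃₀ T with hO
  have hOo : IsOpen O := isOpen_sUnion fun W hW =>
    TopologicalSpace.isOpen_of_mem_countableBasis hW.1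
  have hPO : ∀ᶠ x in residual Bs, x ∈ P → x ∉ O := by
    have h1 : ∀ᶠ x in residual Bs, ∀ W (_ : W ∈ T), x ∈ P → x ∉ W := by
      rw [eventually_countable_ball hTc]
      intro W hW
      have h2 : ∀ᶠ x in residual Bs, x ∈ (P ∩ W)ᶜ := hW.2
      filter_upwards [h2] with x hx hxP hxW
      exact hx ⟨hxP, hxW⟩
    filter_upwards [h1] with x hx hxP
    rintro ⟨W, hW, hxW⟩
    exact hx W hW hxP hxW
  set A : Set Bs := (closure O)ᶜ with hA
  have hAo : IsOpen A := isClosed_closure.isOpen_compl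
  have hAne : A.Nonempty := by
    by_contra hem
    rw [not_nonempty_iff_eq_empty, hA, compl_empty_iff] at hem
    have hd : Dense O := dense_iff_closure_eq.2 hem
    apply hn
    have h1 : ∀ᶠ x in residual Bs, x ∈ Pᶜ := by
      filter_upwards [hPO, residual_of_dense_open hOo hd] with x hx1 hx2 hxP
      exact hx1 hxP hx2
    exact h1
  obtain ⟨B, hBA, hBm, hBn, hB⟩ := h R hR A hAo.measurableSet (nonmeager_of_open hAo hAne)
  rcases hB with hB | ⟨hBP, f, hf, hfR⟩
  · exfalso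
    obtain ⟨U, hUA, hU, hUne, hUB⟩ := open_of_nonmeagre hBm.baireMeasurableSet hAo hBA hBn
    obtain ⟨x, hx⟩ := hUne
    obtain ⟨W, hW, hxW, hWU⟩ :=
      (TopologicalSpace.isBasis_countableBasis Bs).exists_subset_of_mem_open hx hU
    have hWT : W ∈ T := by
      refine ⟨hW, ?_⟩
      have h1 : ∀ᶠ x in residual Bs, x ∈ (P ∩ W)ᶜ := by
        filter_upwards [hUB] with y hy
        rintro ⟨hyP, hyW⟩
        have : y ∈ B ∩ P := ⟨hy (hWU hyW), hyP⟩
        rw [hB] at this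
        exact this
      exact h1
    have hxO : x ∈ closure O := subset_closure ⟨W, hWT, hxW⟩
    exact hUA hx hxO
  · obtain ⟨U, hUV, hU, hUne, hUB⟩ :=
      open_of_nonmeagre hBm.baireMeasurableSet hV (hBP.trans hRV) hBn
    obtain ⟨g, hg, hgf⟩ := (MeasurableEmbedding.subtype_coe hBm).exists_measurable_extend hf
      fun _ => ⟨fun _ => 0⟩
    refine ⟨U, hUV, hU, hUne, g, hg, ?_⟩
    filter_upwards [hUB] with x hx hxU
    have h1 : g x = f ⟨x, hx hxU⟩ := congrFun hgf ⟨x, hx hxU⟩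
    rw [h1]
    exact hfR ⟨x, hx hxU⟩

/-- projective unions of meager sets over a thin projective set are meager -/
theorem um_thin (h : UM) {D : Set Bs} (hD : Proj Bs D) (hthin : Thin D) {M : Set (Bs × Bs)}
    (hM : Proj (Bs × Bs) M) (hm : ∀ d ∈ D, IsMeagre {x | (x, d) ∈ M}) :
    IsMeagre {x | ∃ d ∈ D, (x, d) ∈ M} := by
  by_contra hn
  have hD2 : Proj (Bs × Bs) (Prod.snd ⁻¹' D) := hD.preimage' measurable_snd
  have hR : Proj (Bs × Bs) (M ∩ Prod.snd ⁻¹' D) := hM.inter hD2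
  have he : Prod.fst '' (M ∩ Prod.snd ⁻¹' D) = {x | ∃ d ∈ D, (x, d) ∈ M} := by
    ext x
    constructor
    · rintro ⟨⟨x', d⟩, ⟨h1, h2⟩, rfl⟩
      exact ⟨d, h2, h1⟩
    · rintro ⟨d, h2, h1⟩
      exact ⟨(x, d), ⟨h1, h2⟩, rfl⟩
  rw [← he] at hn
  obtain ⟨U, _, hU, hUne, f, hf, hfR⟩ := um_open h hR hn isOpen_univ (subset_univ _)
  obtain ⟨t, hts, htG, htd⟩ := mem_residual.1 hfR
  have hB : MeasurableSet (t ∩ U) := htG.measurableSet.inter hU.measurableSet
  have hBD : f '' (t ∩ U) ⊆ D := by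
    rintro _ ⟨x, ⟨hxt, hxU⟩, rfl⟩
    exact (hts hxt hxU).2
  have han : MeasureTheory.AnalyticSet (f '' (t ∩ U)) := hB.analyticSet_image hf
  have hcount : (f '' (t ∩ U)).Countable :=
    analytic_countable han fun P hP hPp => hthin P (hP.trans hBD) hPp
  refine not_meagre_inter (residual_of_dense_Gδ htG htd) hU hUne ?_
  have h1 : t ∩ U ⊆ ⋃ d ∈ f '' (t ∩ U), {x | (x, d) ∈ M} := by
    intro x hx
    exact mem_iUnion₂.2 ⟨f x, ⟨x, hx, rfl⟩, (hts hx.1 hx.2).1⟩
  exact (isMeagre_biUnion hcount fun d hd => hm d (hBD hd)).mono h1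

end Pool.Agent.Helper83.UMC
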